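import Pool.Agent.Q174.TB.Inv

/-!
# Continuants and the shape of their coefficient sequences
-/

set_option autoImplicit false

namespace Q174.TB

/-- The sign `(-1)^j`. -/
def sg (j : ℤ) : ℤ := if Even j then 1 else -1

theorem sg_sub_one (j : ℤ) : sg (j - 1) = -sg j := by
  unfold sg
  by_cases h : Even j
  · rw [if_pos h, if_neg (by rw [Int.even_sub_one]; simpa using h)]
  · rw [if_neg h, if_pos (by rw [Int.even_sub_one]; exact h)]
    ring

theorem sg_mul_self (j : ℤ) : sg j * sg j = 1 := by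
  unfold sg
  split_ifs <;> norm_num

/-- The coefficient sequences of two consecutive continuants; the last entry of the continuant is
the head of the list. -/
def FP : List ℤ → (ℤ → ℤ) × (ℤ → ℤ)
  | [] => (one, 0)
  | b :: l => (fun j => b * ((FP l).1 (j - 1) - (FP l).1 j) + (FP l).2 (j - 1), (FP l).1)

theorem Inv.iterQ {m : ℕ} {C W X : ℤ → ℤ} (h : Inv m C W X) (n : ℕ) :
    ∃ W' X', Inv m C W' X' ∧ ∀ j, (C + W') j = (C + W) j + n * (C j + C (j - 1)) := by
  induction n with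
  | zero => exact ⟨W, X, h, fun j => by simp⟩
  | succ n ih =>
    obtain ⟨W', X', h', e⟩ := ih
    refine ⟨_, _, h'.stepQ, fun j => ?_⟩
    have := e j
    simp only [Pi.add_apply, S] at *
    push_cast
    linarith

theorem exists_inv : ∀ l : List ℤ, (∀ b ∈ l, b ≠ 0) →
    ∃ (C W X : ℤ → ℤ) (ε δ : ℤ), Inv l.length C W X ∧ (ε = 1 ∨ ε = -1) ∧ (δ = 1 ∨ δ = -1) ∧
      (∀ j, (FP l).1 j = ε * sg j * (C + W) j) ∧ (∀ j, (FP l).2 j = δ * sg j * C j)
  | [], _ => by
    refine ⟨0, one, one, 1, 1, Inv.init, Or.inl rfl, Or.inl rfl, fun j => ?_, fun j => ?_⟩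
    · simp only [FP, zero_add, one]
      by_cases h : j = 0
      · subst h
        simp [sg]
      · simp [h]
    · simp [FP]
  | b :: l, hb => by
    obtain ⟨C, W, X, ε, δ, hI, hε, hδ, h1, h2⟩ :=
      exists_inv l (fun c hc => hb c (List.mem_cons_of_mem _ hc))
    have hb0 : b ≠ 0 := hb b List.mem_cons_self
    obtain ⟨n, hn⟩ : ∃ n : ℕ, |b| = n + 1 := by
      have : 0 < |b| := abs_pos.2 hb0
      exact ⟨(|b| - 1).toNat, by omega⟩
    -- the new sign
    obtain ⟨ε', hε', hbε⟩ : ∃ ε' : ℤ, (ε' = 1 ∨ ε' = -1) ∧ -(b * ε) = ε' * |b| := by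
      rcases abs_choice b with h | h <;> rcases hε with he | he <;> rw [h, he]
      · exact ⟨-1, by norm_num, by ring⟩
      · exact ⟨1, by norm_num, by ring⟩
      · exact ⟨1, by norm_num, by ring⟩
      · exact ⟨-1, by norm_num, by ring⟩
    have hεε : ε' * ε' = 1 := by rcases hε' with h | h <;> rw [h] <;> norm_num
    have hnew : ∀ j, (FP (b :: l)).1 j =
        ε' * sg j * (|b| * ((C + W) j + (C + W) (j - 1)) + (-(ε' * δ)) * C (j - 1)) := by
      intro j
      simp only [FP]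
      rw [h1 j, h1 (j - 1), h2 (j - 1), sg_sub_one]
      have e1 : ε' * sg j * (|b| * ((C + W) j + (C + W) (j - 1)) + (-(ε' * δ)) * C (j - 1)) =
          sg j * ((ε' * |b|) * ((C + W) j + (C + W) (j - 1)) - (ε' * ε') * δ * C (j - 1)) := by
        ring
      rw [e1, hεε, ← hbε]
      ring
    have hold : ∀ j, (FP (b :: l)).2 j = ε * sg j * (C + W) j := fun j => h1 j
    rcases (by rcases hε' with h | h <;> rcases hδ with h' | h' <;> rw [h, h'] <;> norm_num :
      -(ε' * δ) = 1 ∨ -(ε' * δ) = -1) with hs | hs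
    · obtain ⟨W', X', hI', e⟩ := (hI.stepR).iterQ n
      refine ⟨_, W', X', ε', ε, hI', hε', hε, fun j => ?_, hold⟩
      rw [hnew j, hs, e j, hn]
      simp only [Pi.add_apply, S]
      ring
    · obtain ⟨W', X', hI', e⟩ := (hI.stepP).iterQ n
      refine ⟨_, W', X', ε', ε, hI', hε', hε, fun j => ?_, hold⟩
      have hrel : W (j - 1) = (C (j - 1) + W (j - 1)) - C (j - 1) := by ring
      rw [hnew j, hs, e j, hn]
      simp only [Pi.add_apply, S]
      ring

/-- A non-negative sequence with non-negative minors, positive at `0` and zero from some place on,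
increases and then decreases. -/
theorem unimodal {a : ℤ → ℤ} (h0 : ∀ i, 0 ≤ a i) (ha : R a (S a)) (hp : 0 < a 0) {h : ℕ}
    (hz : a (h + 1) = 0) :
    ∃ i0 : ℕ, i0 ≤ h ∧ (∀ i : ℕ, i < i0 → a i ≤ a (i + 1)) ∧ ∀ i : ℕ, i0 ≤ i → a (i + 1) ≤ a i := by
  classical
  have hex : ∃ i : ℕ, a (i + 1) ≤ a i := ⟨h, by rw [hz]; exact h0 _⟩
  refine ⟨Nat.find hex, Nat.find_min' hex (by rw [hz]; exact h0 _), fun i hi => ?_, ?_⟩
  · have := Nat.find_min hex hi
    omega
  · have step : ∀ i : ℕ, a (i + 1) ≤ a i → a (i + 2) ≤ a (i + 1) := by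
      intro i hi
      have lc := ha (i + 1) (i + 1) le_rfl
      simp only [S] at lc
      rw [show (i : ℤ) + 1 - 1 = i by ring, show (i : ℤ) + 1 + 1 - 1 = i + 1 by ring,
        show (i : ℤ) + 1 + 1 = i + 2 by ring] at lc
      rcases eq_or_lt_of_le (h0 i) with h1 | h1
      · have g1 : a (i + 1) = 0 := le_antisymm (by omega) (h0 _)
        have lc2 := ha (i + 1) 1 (by omega)
        simp only [S] at lc2
        rw [show (1 : ℤ) - 1 = 0 by ring, show (i : ℤ) + 1 + 1 = i + 2 by ring, g1, zero_mul] at lc2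
        rw [g1]
        by_contra hc
        push_neg at hc
        nlinarith
      · have g1 : a (i + 2) * a i ≤ a (i + 1) * a i := by nlinarith [h0 (i + 1)]
        exact le_of_mul_le_mul_right g1 h1
    intro i hi
    induction i, hi using Nat.le_induction with
    | base => exact Nat.find_spec hex
    | succ i hi ih =>
      have := step i ih
      push_cast
      rw [show (i : ℤ) + 1 + 1 = i + 2 by ring]
      exact this

/-- The shape of the coefficients of the continuant of an even number of non-zero integers. -/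
theorem shape (l : List ℤ) (hl : ∀ b ∈ l, b ≠ 0) {g : ℕ} (hg : l.length = 2 * g) :
    ∃ (a : ℕ → ℤ) (ε : ℤ) (k : ℕ), (ε = 1 ∨ ε = -1) ∧ k ≤ g ∧ (∀ j ≤ g, 0 < a j) ∧
      (∀ j, g < j → a j = 0) ∧
      (∀ j : ℤ, (FP l).1 (g + j) = ε * sg j * a j.natAbs) ∧
      (∀ j, 1 ≤ j → j + 1 ≤ k → a (j - 1) + a (j + 1) ≤ 2 * a j) ∧
      (∀ j, k + 1 ≤ j → j + 1 ≤ g → 2 * a j ≤ a (j - 1) + a (j + 1)) := by
  obtain ⟨C, W, X, ε, δ, hI, hε, -, h1, -⟩ := exists_inv l hl
  rw [hg] at hI
  have e2 : 2 * g / 2 = g := by omega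
  have hsec := hI.sec
  rw [e2] at hsec
  set D : ℤ → ℤ := C + W with hD
  have ha0 := hsec.a0
  have haa := hsec.aa
  have hcu : tr (g : ℤ) (df C) + tr (g : ℤ) (df W) = tr (g : ℤ) (df D) := by
    rw [hD, df_add, tr_add]
  rw [hcu] at ha0 haa
  have hD0 : 0 < D 0 := hI.pos
  have hneg : ∀ j < 0, D j = 0 := fun j hj => by
    rw [hD]
    simp [hI.negC j hj, hI.negW j hj]
  have hdf0 : df D 0 = D 0 := by
    unfold df
    rw [hneg (0 - 1) (by omega)]
    ring
  have hp : 0 < tr (g : ℤ) (df D) 0 := by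
    rw [tr_of_le (by omega), hdf0]
    exact hD0
  obtain ⟨i0, hi0, hup, hdown⟩ := unimodal ha0 haa hp (h := g) (tr_of_lt (by omega))
  have hsym : ∀ j : ℤ, D (g - j) = D (g + j) := by
    intro j
    have := hI.symD (g + j)
    rw [show ((2 * g : ℕ) : ℤ) - (g + j) = g - j by push_cast; ring] at this
    exact this
  have hmono : ∀ i : ℕ, (i : ℤ) ≤ g → 0 < D i := by
    intro i
    induction i with
    | zero => intro _; exact hD0
    | succ i ih =>
      intro hi
      have g1 := ih (by push_cast at hi; omega)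
      have g2 := ha0 ((i + 1 : ℕ) : ℤ)
      rw [tr_of_le hi] at g2
      unfold df at g2
      rw [show ((i + 1 : ℕ) : ℤ) - 1 = i by push_cast; ring] at g2
      omega
  -- the sign of the middle
  obtain ⟨ε', hε', hεs⟩ : ∃ ε' : ℤ, (ε' = 1 ∨ ε' = -1) ∧ ∀ j : ℤ, ε * sg (g + j) = ε' * sg j := by
    by_cases hgp : Even (g : ℤ)
    · refine ⟨ε, hε, fun j => ?_⟩
      congr 1
      unfold sg
      have : Even ((g : ℤ) + j) ↔ Even j := by
        rw [Int.even_add]
        simp [hgp]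
      simp [this]
    · refine ⟨-ε, by rcases hε with h | h <;> rw [h] <;> norm_num, fun j => ?_⟩
      have : Even ((g : ℤ) + j) ↔ ¬ Even j := by
        rw [Int.even_add]
        simp [hgp]
      unfold sg
      by_cases hj : Even j
      · rw [if_neg (by rw [this]; simpa using hj), if_pos hj]
        ring
      · rw [if_pos (by rw [this]; exact hj), if_neg hj]
        ring
  refine ⟨fun j => D (g + j), ε', g - i0, hε', by omega, fun j hj => ?_, fun j hj => ?_,
    fun j => ?_, fun j hj1 hj2 => ?_, fun j hj1 hj2 => ?_⟩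
  · show 0 < D (g + j)
    rw [← hsym]
    have := hmono (g - j) (by omega)
    rwa [show ((g - j : ℕ) : ℤ) = (g : ℤ) - j by omega] at this
  · show D (g + j) = 0
    rw [← hsym]
    exact hneg _ (by omega)
  · rw [h1, hεs]
    congr 1
    show D (g + j) = D (g + ((j.natAbs : ℕ) : ℤ))
    rcases abs_choice j with h | h
    · rw [Int.natCast_natAbs, h]
    · rw [Int.natCast_natAbs, h, ← hsym (-j)]
      congr 1
      ring
  · show D (g + ((j - 1 : ℕ) : ℤ)) + D (g + ((j + 1 : ℕ) : ℤ)) ≤ 2 * D (g + (j : ℤ))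
    rw [← hsym, ← hsym, ← hsym]
    have k := hdown (g - j) (by omega)
    rw [tr_of_le (by omega), tr_of_le (by omega)] at k
    unfold df at k
    rw [show (g : ℤ) - ((j - 1 : ℕ) : ℤ) = ((g - j : ℕ) : ℤ) + 1 by omega,
      show (g : ℤ) - ((j + 1 : ℕ) : ℤ) = ((g - j : ℕ) : ℤ) - 1 by omega,
      show (g : ℤ) - (j : ℤ) = ((g - j : ℕ) : ℤ) by omega]
    rw [show ((g - j : ℕ) : ℤ) + 1 - 1 = ((g - j : ℕ) : ℤ) by ring] at k
    linarith
  · show 2 * D (g + (j : ℤ)) ≤ D (g + ((j - 1 : ℕ) : ℤ)) + D (g + ((j + 1 : ℕ) : ℤ))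
    rw [← hsym, ← hsym, ← hsym]
    have k := hup (g - j) (by omega)
    rw [tr_of_le (by omega), tr_of_le (by omega)] at k
    unfold df at k
    rw [show (g : ℤ) - ((j - 1 : ℕ) : ℤ) = ((g - j : ℕ) : ℤ) + 1 by omega,
      show (g : ℤ) - ((j + 1 : ℕ) : ℤ) = ((g - j : ℕ) : ℤ) - 1 by omega,
      show (g : ℤ) - (j : ℤ) = ((g - j : ℕ) : ℤ) by omega]
    rw [show ((g - j : ℕ) : ℤ) + 1 - 1 = ((g - j : ℕ) : ℤ) by ring] at k
    linarith

end Q174.TB
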