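import Pool.Agent.Q174.TB.Diag
import Pool.Agent.Helper454.Wh.Homf.E12

/-!
# The Conway polynomial and the Alexander polynomial of two-bridge links
-/

set_option autoImplicit false

namespace Q174.TBD

open Pool.Agent.Helper454.Wh
open Pool.Agent.Helper454.Wh.OPiece
open LaurentPolynomial (T)
open Polynomial (toLaurent)

noncomputable section

/-- `Λ` is the Conway polynomial, with values in `ℤ[z, z⁻¹]` (the variable is `z = T 1`): it is an
isotopy invariant of oriented link diagrams with `∇(L₊) - ∇(L₋) = z ∇(L₀)` and `∇(unknot) = 1`. -/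
def IsConway (Λ : OWord → LaurentPolynomial ℤ) : Prop :=
  HomflyRules (1 : LaurentPolynomial ℤ) 1 (T 1) Λ ∧ Λ ocircle = 1

/-! ### existence -/

/-- evaluation at `l = 1` -/
def psi1 : LaurentPolynomial ℤ →+* ℤ := LaurentPolynomial.eval₂ (RingHom.id ℤ) 1

/-- evaluation at `l = 1`, for the coefficients -/
def phi1 : Rlm →+* LaurentPolynomial ℤ := AddMonoidAlgebra.mapRingHom ℤ psi1

theorem phi1_coeff (x : Rlm) (k : ℤ) : (phi1 x).coeff k = psi1 (x.coeff k) :=
  AddMonoidAlgebra.coeff_mapRingHom _ _ _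

theorem phi1_C (x : LaurentPolynomial ℤ) :
    phi1 (LaurentPolynomial.C x) = LaurentPolynomial.C (psi1 x) := by
  ext k : 1
  rw [phi1_coeff, LaurentPolynomial.C_apply, LaurentPolynomial.C_apply]
  split_ifs
  · rfl
  · rw [map_zero]

theorem phi1_T (n : ℤ) : phi1 (LaurentPolynomial.T n) = LaurentPolynomial.T n := by
  ext k : 1
  rw [phi1_coeff, LaurentPolynomial.T_apply, LaurentPolynomial.T_apply]
  split_ifs
  · rw [map_one]
  · rw [map_zero]

theorem phi1_l (n : ℤ) : phi1 (lPow n) = 1 := by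
  rw [lPow, phi1_C]
  have : psi1 (LaurentPolynomial.T n) = 1 := by
    rw [psi1, LaurentPolynomial.eval₂_T, one_zpow]
    rfl
  rw [this, map_one]

theorem exists_conway : ∃ Λ : OWord → LaurentPolynomial ℤ, IsConway Λ := by
  obtain ⟨Λ, h, h1⟩ := Pool.Agent.Helper454.Wh.Homf.exists_homfly
  refine ⟨fun D => phi1 (Λ D), ⟨fun D E hDE => congrArg phi1 (h.isotopy D E hDE), ?_, ?_⟩, ?_⟩
  · intro x i y h1 h2
    have := congrArg phi1 (h.parallel x i y h1 h2)
    simp only [smul_eq_mul, map_sub, map_mul, phi1_l, mPow, phi1_T] at this ⊢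
    exact this
  · intro x i y h1 h2
    have := congrArg phi1 (h.antiparallel x i y h1 h2)
    simp only [smul_eq_mul, map_sub, map_mul, phi1_l, mPow, phi1_T] at this ⊢
    exact this
  · show phi1 (Λ ocircle) = 1
    rw [h1, map_one]

/-! ### the values -/

/-- two consecutive Euler continuants -/
def PQ : List ℤ → Polynomial ℤ × Polynomial ℤ
  | [] => (1, 0)
  | b :: l => (Polynomial.C b * Polynomial.X * (PQ l).1 + (PQ l).2, (PQ l).1)

theorem pairV_eq {Λ : OWord → LaurentPolynomial ℤ} (hΛ : IsConway Λ) : ∀ l : List ℤ,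
    pairV Λ l = (toLaurent (PQ l).1, toLaurent (PQ l).2)
  | [] => by
    rw [pairV_nil hΛ.1, hΛ.2]
    have h := unlink hΛ.1
    have h2 : vB (ap (extd Λ) top) = 0 := by
      have h3 : (T (-1) : LaurentPolynomial ℤ) • (T 1 : LaurentPolynomial ℤ) •
          vB (ap (extd Λ) top) = 0 := by rw [h, smul_zero]
      rw [smul_smul, ← LaurentPolynomial.T_add] at h3
      simpa using h3
    rw [h2]
    simp [PQ]
  | b :: l => by
    rw [pairV_cons hΛ.1, pairV_eq hΛ l]
    simp only [PQ, map_add, map_mul, Polynomial.toLaurent_C, Polynomial.toLaurent_X, smul_eq_mul]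
    refine Prod.ext ?_ rfl
    simp only
    rw [mul_assoc]
    congr 2

/-- The substitution `z = s - s⁻¹` (`s = T 1` is the square root of `t`). -/
def subst (P : Polynomial ℤ) : LaurentPolynomial ℤ := Polynomial.aeval (T 1 - T (-1)) P

/-- `Δ`, a Laurent polynomial in `s = t^{1/2}`, is the (Conway-normalised) Alexander polynomial of
the diagram `K`: the Conway polynomial `∇` of `K` is a polynomial and `Δ = ∇(s - s⁻¹)`. -/
def IsAlexander (Λ : OWord → LaurentPolynomial ℤ) (K : OWord) (Δ : LaurentPolynomial ℤ) : Prop :=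
  ∃ P : Polynomial ℤ, Λ K = toLaurent P ∧ Δ = subst P

theorem coeff_add' (k : ℤ) (f g : LaurentPolynomial ℤ) :
    (f + g).coeff k = f.coeff k + g.coeff k := by
  rw [AddMonoidAlgebra.coeff_add, Finsupp.add_apply]

theorem coeff_sub' (k : ℤ) (f g : LaurentPolynomial ℤ) :
    (f - g).coeff k = f.coeff k - g.coeff k := by
  rw [AddMonoidAlgebra.coeff_sub, Finsupp.sub_apply]

theorem coeff_T_mul (i k : ℤ) (f : LaurentPolynomial ℤ) :
    (T i * f).coeff k = f.coeff (k - i) := by
  rw [LaurentPolynomial.T, AddMonoidAlgebra.coeff_single_mul_apply, one_mul, neg_add_eq_sub]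

theorem coeff_C_mul (c k : ℤ) (f : LaurentPolynomial ℤ) :
    (LaurentPolynomial.C c * f).coeff k = c * f.coeff k := by
  rw [← LaurentPolynomial.single_eq_C, AddMonoidAlgebra.coeff_single_mul_apply, neg_zero, zero_add]

theorem subst_cons (b : ℤ) (l : List ℤ) :
    subst (PQ (b :: l)).1 = LaurentPolynomial.C b * (T 1 * subst (PQ l).1) -
      LaurentPolynomial.C b * (T (-1) * subst (PQ l).1) + subst (PQ l).2 := by
  unfold subst
  simp only [PQ, map_add, map_mul, Polynomial.aeval_C, Polynomial.aeval_X]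
  have : (algebraMap ℤ (LaurentPolynomial ℤ)) b = LaurentPolynomial.C b := by
    simp
  rw [this]
  ring

/-- the coefficients of the Alexander polynomial -/
theorem coeffs : ∀ l : List ℤ, (∀ j : ℤ,
    (subst (PQ l).1).coeff (2 * j - l.length) = (Q174.TB.FP l).1 j ∧
    (subst (PQ l).1).coeff (2 * j - l.length + 1) = 0 ∧
    (subst (PQ l).2).coeff (2 * j - l.length + 1) = (Q174.TB.FP l).2 j ∧
    (subst (PQ l).2).coeff (2 * j - l.length) = 0)
  | [] => by
    intro j
    have h1 : subst (PQ []).1 = 1 := by simp [subst, PQ]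
    have h2 : subst (PQ []).2 = 0 := by simp [subst, PQ]
    have h3 : (1 : LaurentPolynomial ℤ) = LaurentPolynomial.C 1 := by simp
    rw [h1, h2, h3]
    simp only [LaurentPolynomial.C_apply, Q174.TB.FP, Q174.TB.one, List.length_nil]
    push_cast
    refine ⟨?_, ?_, rfl, rfl⟩
    · split_ifs <;> omega
    · rw [if_neg (by omega)]
  | b :: l => by
    intro j
    have ih := coeffs l
    have hP2 : (PQ (b :: l)).2 = (PQ l).1 := rfl
    rw [subst_cons, hP2]
    simp only [coeff_add', coeff_sub', coeff_C_mul, coeff_T_mul, List.length_cons, Q174.TB.FP]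
    push_cast
    obtain ⟨a1, a2, a3, a4⟩ := ih j
    obtain ⟨b1, b2, b3, b4⟩ := ih (j - 1)
    rw [show 2 * (j - 1) - (l.length : ℤ) = 2 * j - (l.length + 1) - 1 by ring] at b1 b4
    rw [show 2 * (j - 1) - (l.length : ℤ) + 1 = 2 * j - (l.length + 1) by ring] at b2 b3
    refine ⟨?_, ?_, ?_, ?_⟩
    · rw [show 2 * j - ((l.length : ℤ) + 1) - -1 = 2 * j - l.length by ring, b1, a1, b3]
      ring
    · rw [show 2 * j - ((l.length : ℤ) + 1) + 1 - 1 = 2 * j - (l.length + 1) by ring,
        show 2 * j - ((l.length : ℤ) + 1) + 1 - -1 = 2 * j - l.length + 1 by ring,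
        show 2 * j - ((l.length : ℤ) + 1) + 1 = 2 * j - l.length by ring, b2, a2, a4]
      ring
    · rw [show 2 * j - ((l.length : ℤ) + 1) + 1 = 2 * j - l.length by ring, a1]
    · exact b2

end

end Q174.TBD
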