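import Pool.Agent.Helper454.Wh.Ops
import Pool.Agent.Q174.TB.Cont

/-!
# Diagrams of two-bridge links and their Conway polynomials
-/

set_option autoImplicit false
set_option linter.unusedSectionVars false

namespace Q174.TBD

open Pool.Agent.Helper454.Wh
open Pool.Agent.Helper454.Wh.OPiece
open Polynomial (toLaurent)

/-- The twist region of Conway's normal form with the entry `2 b`: `2 |b|` crossings of the strands
`i` and `i + 1`, all of them of the kind `neg` if `b` is positive and of the kind `pos` if `b` is
negative. -/
def twist (i : ℕ) (b : ℤ) : OWord :=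
  List.replicate (2 * b.natAbs) (if 0 ≤ b then neg i else pos i)

/-- The place of the twist region number `n` (counted from `0`): the strands `1, 2` and `0, 1` in
turns. -/
def place (n : ℕ) : ℕ := if Even n then 1 else 0

/-- Two maxima side by side, on four strands directed down, up, down, up. -/
def top : OWord := [birth 0 true, birth 2 true]

/-- The two maxima followed by the twist regions; the head of the list is the entry of the last
region. -/
def body : List ℤ → OWord
  | [] => top
  | b :: l => body l ++ twist (place l.length) b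

/-- The two minima below `n` twist regions: nested if `n` is even, side by side if `n` is odd. -/
def bottom (n : ℕ) : OWord := if Even n then [death 1, death 0] else [death 0, death 0]

/-- The diagram of Conway's normal form `C(2 b₁, 2 b₂, …, 2 bₘ)` of a two-bridge link, for the list
`b₁, …, bₘ`. -/
def normalForm (b : List ℤ) : OWord := body b.reverse ++ bottom b.length

/-- The directions of the four strands. -/
def d0 : ℕ → Bool := insD 2 true (insD 0 true noD)

theorem d0_0 : d0 0 = true := rfl
theorem d0_1 : d0 1 = false := rfl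
theorem d0_2 : d0 2 = true := rfl
theorem d0_3 : d0 3 = false := rfl

theorem replicate_two (p : OPiece) (k : ℕ) :
    List.replicate (2 * (k + 1)) p = List.replicate (2 * k + 1) p ++ [p] := by
  rw [show 2 * (k + 1) = 2 * k + 1 + 1 by ring, List.replicate_succ']

section
variable {R : Type} [CommRing R] {M : Type} [AddCommGroup M] [Module R M]
variable {m : R} {Λ : OWord → M} (hΛ : HomflyRules (1 : R) 1 m Λ)

theorem ap_append (f : OWord → M) (u v : OWord) : ap f (u ++ v) = ap (ap f u) v := by
  funext y
  simp [ap]

theorem ap_single (f : OWord → M) (p : OPiece) : ap f [p] = st f p := rfl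

theorem ap_snoc (f : OWord → M) (u : OWord) (p : OPiece) : ap f (u ++ [p]) = st (ap f u) p := by
  rw [ap_append, ap_single]

/-- the directions after `k` crossings -/
def sw (i : ℕ) (d : ℕ → Bool) (k : ℕ) : ℕ → Bool := if Even k then d else swpD i d

theorem sw_succ (i : ℕ) (d : ℕ → Bool) (k : ℕ) : swpD i (sw i d k) = sw i d (k + 1) := by
  unfold sw
  by_cases h : Even k
  · rw [if_pos h, if_neg (by rw [Nat.even_add_one]; simpa using h)]
  · rw [if_neg h, if_pos (by rw [Nat.even_add_one]; exact h), swp_swp]

theorem rep_mem {n : ℕ} {d : ℕ → Bool} {f : OWord → M} (hf : f ∈ S R Λ n d) {i : ℕ}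
    (h : i + 2 ≤ n) (c : Bool) (k : ℕ) :
    ap f (List.replicate k (cr c i)) ∈ S R Λ n (sw i d k) := by
  induction k with
  | zero => exact hf
  | succ k ih =>
    rw [List.replicate_succ', ap_snoc, ← sw_succ]
    exact cr_mem ih c h

include hΛ

theorem curl_rep {n : ℕ} {f : OWord → M} (hf : T R Λ n f) {i : ℕ}
    (h : i + 2 ≤ n) (c : Bool) (k : ℕ) :
    st (ap f (List.replicate k (cr c i))) (death i) = st f (death i) ∧
      T R Λ n (ap f (List.replicate k (cr c i))) := by
  induction k with
  | zero => exact ⟨rfl, hf⟩
  | succ k ih =>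
    rw [List.replicate_succ', ap_snoc]
    refine ⟨?_, T_cr ih.2 c h⟩
    rw [← ih.1]
    cases c
    · exact curlDN hΛ ih.2 h
    · exact curlDP hΛ ih.2 h

/-- an antiparallel twist region with an even number of crossings -/
theorem twist_eq {n : ℕ} {d : ℕ → Bool} {f : OWord → M} (hf : f ∈ S R Λ n d) {i : ℕ}
    (h : i + 2 ≤ n) (hd : d (i + 1) = !d i) (c : Bool) (k : ℕ) :
    ap f (List.replicate (2 * k) (cr c i)) = f +
      (((if c then -(k : ℤ) else (k : ℤ)) : ℤ) : R) • m • st (st f (death i)) (birth i (d i)) := by
  induction k with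
  | zero => cases c <;> simp [ap_nil]
  | succ k ih =>
    rw [replicate_two, ap_snoc]
    have hT := T_of_mem hf
    have hmem := rep_mem hf h c (2 * k + 1)
    have hsw : sw i d (2 * k + 1) = swpD i d := by
      unfold sw
      rw [if_neg (by simp)]
    rw [hsw] at hmem
    have hd1 : swpD i d (i + 1) = !swpD i d i := by
      rw [swpD_right, swpD_left, hd, Bool.not_not]
    have sk := skein_anti hΛ hmem h hd1
    rw [(curl_rep hΛ hT h c (2 * k + 1)).1, swpD_right, one_smul, one_smul] at sk
    have hT2 := (curl_rep hΛ hT h c (2 * k)).2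
    rw [List.replicate_succ', ap_snoc] at sk ⊢
    cases c
    · rw [cr_false] at sk ih hT2 ⊢
      rw [np hΛ hT2 h] at sk
      rw [sub_eq_iff_eq_add.1 sk, ih]
      simp only [Bool.false_eq_true, if_false]
      push_cast
      rw [add_smul, one_smul]
      abel
    · rw [cr_true] at sk ih hT2 ⊢
      rw [pn hΛ hT2 h] at sk
      have e2 : st (st (ap f (List.replicate (2 * k) (pos i))) (pos i)) (pos i) =
          ap f (List.replicate (2 * k) (pos i)) - m • st (st f (death i)) (birth i (d i)) := by
        rw [← sk]
        abel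
      rw [e2, ih]
      simp only [if_true]
      push_cast
      rw [neg_add, add_smul, neg_smul, neg_smul, one_smul]
      abel

omit hΛ in
theorem twist_cr (i : ℕ) (b : ℤ) :
    twist i b = List.replicate (2 * b.natAbs) (cr (decide (b < 0)) i) := by
  unfold twist cr
  by_cases h : 0 ≤ b
  · rw [if_pos h, if_neg (by simpa using h)]
  · rw [if_neg h, if_pos (by simpa using h)]

theorem twist_val {n : ℕ} {d : ℕ → Bool} {f : OWord → M} (hf : f ∈ S R Λ n d) {i : ℕ}
    (h : i + 2 ≤ n) (hd : d (i + 1) = !d i) (b : ℤ) :
    ap f (twist i b) = f + (b : R) • m • st (st f (death i)) (birth i (d i)) := by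
  rw [twist_cr, twist_eq hΛ hf h hd]
  congr 3
  by_cases hb : b < 0
  · simp only [hb, decide_true, if_true]
    omega
  · simp only [hb, decide_false, Bool.false_eq_true, if_false]
    omega

theorem twist_mem {n : ℕ} {d : ℕ → Bool} {f : OWord → M} (hf : f ∈ S R Λ n d) {i : ℕ}
    (h : i + 2 ≤ n) (b : ℤ) : ap f (twist i b) ∈ S R Λ n d := by
  rw [twist_cr]
  have := rep_mem (R := R) hf h (decide (b < 0)) (2 * b.natAbs)
  rwa [sw, if_pos (by simp)] at this

theorem twist_curl {n : ℕ} {f : OWord → M} (hf : T R Λ n f) {i : ℕ}
    (h : i + 2 ≤ n) (b : ℤ) : st (ap f (twist i b)) (death i) = st f (death i) := by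
  rw [twist_cr]
  exact (curl_rep hΛ hf h _ _).1

omit hΛ in
theorem d0_mem : ap (extd Λ) top ∈ S R Λ 4 d0 :=
  Submodule.subset_span ⟨top, by simp [top, Pool.Agent.Helper454.Wh.below, OPiece.below, d0], rfl⟩

theorem body_mem : ∀ l : List ℤ, ap (extd Λ) (body l) ∈ S R Λ 4 d0
  | [] => d0_mem
  | b :: l => by
    show ap (extd Λ) (body l ++ twist (place l.length) b) ∈ S R Λ 4 d0
    rw [ap_append]
    refine twist_mem hΛ (body_mem l) ?_ b
    unfold place
    split_ifs <;> omega

omit hΛ in
/-- the value with the nested minima -/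
def vA (f : OWord → M) : M := st (st f (death 1)) (death 0) []

omit hΛ in
/-- the value with the minima side by side -/
def vB (f : OWord → M) : M := st (st f (death 0)) (death 0) []

theorem vA_one {f : OWord → M} (hf : f ∈ S R Λ 4 d0) (b : ℤ) : vA (ap f (twist 1 b)) = vA f := by
  unfold vA
  rw [twist_curl hΛ (T_of_mem hf) (by omega)]

theorem vB_zero {f : OWord → M} (hf : f ∈ S R Λ 4 d0) (b : ℤ) : vB (ap f (twist 0 b)) = vB f := by
  unfold vB
  rw [twist_curl hΛ (T_of_mem hf) (by omega)]

theorem vB_one {f : OWord → M} (hf : f ∈ S R Λ 4 d0) (b : ℤ) :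
    vB (ap f (twist 1 b)) = vB f + (b : R) • m • vA f := by
  unfold vB vA
  rw [twist_val hΛ hf (by omega) rfl]
  have h1 : st f (death 1) ∈ S R Λ 2 (delD 1 d0) := death_mem hf (by omega) rfl
  have e := zig2 hΛ h1 (i := 0) (by omega) (b := d0 1) rfl
  have e' : st (st (st f (death 1)) (birth 1 (d0 1))) (death 0) = st f (death 1) := e
  rw [st_add, st_smul, st_smul, e', st_add, st_smul, st_smul]
  rfl

theorem vA_zero {f : OWord → M} (hf : f ∈ S R Λ 4 d0) (b : ℤ) :
    vA (ap f (twist 0 b)) = vA f + (b : R) • m • vB f := by
  unfold vB vA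
  rw [twist_val hΛ hf (by omega) rfl]
  have h1 : st f (death 0) ∈ S R Λ 2 (delD 0 d0) := death_mem hf (by omega) rfl
  have e := zig1 hΛ h1 (i := 0) (by omega) (b := d0 0) rfl
  have e' : st (st (st f (death 0)) (birth 0 (d0 0))) (death 1) = st f (death 0) := e
  rw [st_add, st_smul, st_smul, e', st_add, st_smul, st_smul]
  rfl

/-- the values of the normal forms with `l` and with the tail of `l` -/
def pairV (Λ : OWord → M) (l : List ℤ) : M × M :=
  if Even l.length then (vA (ap (extd Λ) (body l)), vB (ap (extd Λ) (body l)))
  else (vB (ap (extd Λ) (body l)), vA (ap (extd Λ) (body l)))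

theorem pairV_cons (b : ℤ) (l : List ℤ) :
    pairV Λ (b :: l) = ((b : R) • m • (pairV Λ l).1 + (pairV Λ l).2, (pairV Λ l).1) := by
  have hf := body_mem hΛ l
  have hb : ap (extd Λ) (body (b :: l)) = ap (ap (extd Λ) (body l)) (twist (place l.length) b) :=
    ap_append _ _ _
  unfold pairV
  rw [hb, List.length_cons]
  by_cases h : Even l.length
  · rw [if_pos h, if_neg (by rw [Nat.even_add_one]; simpa using h)]
    have hp : place l.length = 1 := if_pos h
    rw [hp, vA_one hΛ hf, vB_one hΛ hf, add_comm]
  · rw [if_neg h, if_pos (by rw [Nat.even_add_one]; exact h)]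
    have hp : place l.length = 0 := if_neg h
    rw [hp, vA_zero hΛ hf, vB_zero hΛ hf, add_comm]

theorem pairV_nil : pairV Λ [] = (Λ ocircle, vB (ap (extd Λ) top)) := by
  unfold pairV
  rw [if_pos (by simp)]
  refine Prod.ext ?_ rfl
  show vA (ap (extd Λ) top) = _
  have h0 : extd Λ ∈ S R Λ 0 noD := Submodule.subset_span ⟨[], rfl, rfl⟩
  have h1 : st (extd Λ) (birth 0 true) ∈ S R Λ 2 (insD 0 true noD) := birth_mem h0 true le_rfl
  have e := zig2 hΛ h1 (i := 1) (by omega) (b := true) rfl
  show st (st (st (st (extd Λ) (birth 0 true)) (birth 2 true)) (death 1)) (death 0) [] = _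
  have e' : st (st (st (extd Λ) (birth 0 true)) (birth 2 true)) (death 1) =
    st (extd Λ) (birth 0 true) := e
  rw [e']
  show extd Λ [birth 0 true, death 0] = _
  rw [extd, if_pos]
  · rfl
  · simp [OClosed, Pool.Agent.Helper454.Wh.below, OPiece.below, insD]

/-- the crossingless diagram of two circles -/
theorem unlink : m • vB (ap (extd Λ) top) = 0 := by
  have h0 : extd Λ ∈ S R Λ 0 noD := Submodule.subset_span ⟨[], rfl, rfl⟩
  have h1 : st (extd Λ) (birth 0 true) ∈ S R Λ 2 (insD 0 true noD) := birth_mem h0 true le_rfl
  have e1 := bb hΛ (T_of_mem h0) true true (i := 0) (j := 0) le_rfl le_rfl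
  have e2 := bigon hΛ h1 (i := 0) true (by omega)
  rw [sub_self, zero_smul] at e2
  show m • st (st (st (st (extd Λ) (birth 0 true)) (birth 2 true)) (death 0)) (death 0) [] = 0
  have e1' : st (st (extd Λ) (birth 0 true)) (birth 2 true) =
      st (st (extd Λ) (birth 0 true)) (birth 0 true) := e1
  rw [e1']
  exact congrFun e2 [death 0]

/-- the value of the normal form -/
theorem value (b : List ℤ) : Λ (normalForm b) = (pairV Λ b.reverse).1 := by
  have hc : OClosed (normalForm b) := by
    have hmem : ∀ l : List ℤ, Pool.Agent.Helper454.Wh.below (body l) 0 noD = some (4, d0) := by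
      intro l
      induction l with
      | nil => simp [body, top, Pool.Agent.Helper454.Wh.below, OPiece.below, d0]
      | cons b l ih =>
        show Pool.Agent.Helper454.Wh.below (body l ++ twist (place l.length) b) 0 noD = _
        rw [below_append, ih, Option.bind_some]
        have hp : place l.length + 2 ≤ 4 := by
          unfold place
          split_ifs <;> omega
        have hk : ∀ k, Pool.Agent.Helper454.Wh.below (List.replicate (2 * k)
            (cr (decide (b < 0)) (place l.length))) 4 d0 = some (4, d0) := by
          intro k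
          induction k with
          | zero => rfl
          | succ k ihk =>
            rw [show 2 * (k + 1) = 2 * k + 2 by ring, List.replicate_add, below_append, ihk,
              Option.bind_some]
            cases decide (b < 0) <;>
              simp [cr, List.replicate, Pool.Agent.Helper454.Wh.below, OPiece.below, hp, swp_swp]
        rw [twist_cr]
        exact hk _
    unfold normalForm
    rw [OClosed, below_append, hmem, Option.bind_some]
    unfold bottom
    split_ifs <;>
      simp [Pool.Agent.Helper454.Wh.below, OPiece.below, d0, insD, delD]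
  have h1 : Λ (normalForm b) = extd Λ (normalForm b) := (if_pos hc).symm
  rw [h1]
  unfold pairV
  rw [List.length_reverse]
  show ap (extd Λ) (body b.reverse) (bottom b.length) = _
  unfold bottom
  split_ifs <;> rfl

end

end Q174.TBD
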