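import Pool.Agent.Q174.TB.Conway

/-!
# The statement for two-bridge knots
-/

set_option autoImplicit false

namespace Q174.TBD

open Pool.Agent.Helper454.Wh
open Pool.Agent.Helper454.Wh.OPiece
open Pool.Agent.Helper454.Kauf (IsKnot Closed componentsAux components)
open LaurentPolynomial (T)
open Polynomial (toLaurent)

noncomputable section

/-- The Laurent polynomial `ε (a₀ - a₁ (t + t⁻¹) + a₂ (t² + t⁻²) - ⋯ + (-1)ⁿ aₙ (tⁿ + t⁻ⁿ))` in
`s = T 1`, where `t = s²`. -/
def alexForm (ε : ℤ) (n : ℕ) (a : ℕ → ℤ) : LaurentPolynomial ℤ :=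
  LaurentPolynomial.C ε * (LaurentPolynomial.C (a 0) + ∑ i ∈ Finset.range n,
    LaurentPolynomial.C ((-1) ^ (i + 1) * a (i + 1)) *
      (T (2 * ((i + 1 : ℕ) : ℤ)) + T (-(2 * ((i + 1 : ℕ) : ℤ)))))

theorem coeff_sum' {ι : Type} (s : Finset ι) (f : ι → LaurentPolynomial ℤ) (k : ℤ) :
    (∑ i ∈ s, f i).coeff k = ∑ i ∈ s, (f i).coeff k := by
  classical
  induction s using Finset.induction_on with
  | empty => simp
  | insert a s ha ih => rw [Finset.sum_insert ha, Finset.sum_insert ha, coeff_add', ih]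

theorem coeff_C (c k : ℤ) : (LaurentPolynomial.C c).coeff k = if k = 0 then c else 0 := by
  rw [LaurentPolynomial.C_apply]

theorem coeff_T (n k : ℤ) : (T n : LaurentPolynomial ℤ).coeff k = if k = n then 1 else 0 := by
  rw [LaurentPolynomial.T_apply]
  by_cases h : k = n
  · rw [if_pos h, if_pos h.symm]
  · rw [if_neg h, if_neg (Ne.symm h)]

theorem sg_neg (j : ℤ) : Q174.TB.sg (-j) = Q174.TB.sg j := by
  unfold Q174.TB.sg
  simp

theorem sg_nat (j : ℕ) : Q174.TB.sg (j : ℤ) = (-1) ^ j := by
  unfold Q174.TB.sg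
  by_cases h : Even j
  · rw [if_pos (by exact_mod_cast h), h.neg_one_pow]
  · rw [if_neg (by exact_mod_cast h), (Nat.not_even_iff_odd.1 h).neg_one_pow]

/-- the coefficients of `alexForm` -/
theorem alexForm_coeff {ε : ℤ} {n : ℕ} {a : ℕ → ℤ} (ha : ∀ j, n < j → a j = 0) (j : ℤ) :
    (alexForm ε n a).coeff (2 * j) = ε * Q174.TB.sg j * a j.natAbs := by
  unfold alexForm
  rw [coeff_C_mul, coeff_add', coeff_sum', coeff_C]
  have h1 : ∀ i ∈ Finset.range n, (LaurentPolynomial.C ((-1) ^ (i + 1) * a (i + 1)) *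
      (T (2 * ((i + 1 : ℕ) : ℤ)) + T (-(2 * ((i + 1 : ℕ) : ℤ))))).coeff (2 * j) =
      if i + 1 = j.natAbs then (-1) ^ (i + 1) * a (i + 1) else 0 := by
    intro i _
    rw [coeff_C_mul, coeff_add', coeff_T, coeff_T]
    by_cases h : i + 1 = j.natAbs
    · rw [if_pos h]
      rcases Int.natAbs_eq j with h2 | h2
      · rw [if_pos (by omega), if_neg (by omega)]
        ring
      · rw [if_neg (by omega), if_pos (by omega)]
        ring
    · rw [if_neg h, if_neg (by omega), if_neg (by omega)]
      ring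
  rw [Finset.sum_congr rfl h1, mul_assoc]
  congr 1
  rcases Nat.eq_zero_or_pos j.natAbs with h2 | h2
  · have hj : j = 0 := by omega
    subst hj
    rw [Finset.sum_eq_zero (by intro i _; rw [if_neg (by simp)])]
    simp [Q174.TB.sg]
  · rw [if_neg (by omega), zero_add]
    have hs : Q174.TB.sg j = (-1) ^ j.natAbs := by
      rw [← sg_nat]
      rcases Int.natAbs_eq j with h3 | h3
      · rw [← h3]
      · nth_rw 1 [h3]
        rw [sg_neg]
    obtain ⟨p, hp⟩ : ∃ p, j.natAbs = p + 1 := ⟨j.natAbs - 1, by omega⟩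
    rw [hs, hp]
    by_cases hpn : p < n
    · rw [Finset.sum_eq_single_of_mem p (Finset.mem_range.2 hpn)
        (by intro q _ hq; rw [if_neg (by omega)]), if_pos rfl]
    · rw [ha (p + 1) (by omega), mul_zero]
      refine Finset.sum_eq_zero ?_
      intro q hq
      rw [if_neg]
      have := Finset.mem_range.1 hq
      omega

theorem alexForm_coeff_odd {ε : ℤ} {n : ℕ} {a : ℕ → ℤ} (j : ℤ) :
    (alexForm ε n a).coeff (2 * j + 1) = 0 := by
  unfold alexForm
  rw [coeff_C_mul, coeff_add', coeff_sum', coeff_C, if_neg (by omega),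
    Finset.sum_eq_zero]
  · ring
  · intro i _
    rw [coeff_C_mul, coeff_add', coeff_T, coeff_T, if_neg (by omega), if_neg (by omega)]
    ring

/-- `K` is a diagram of a two-bridge knot: it is isotopic to Conway's normal form
`C(2 b₁, 2 b₂, …, 2 b_{2g})` for some non-zero integers `b₁, …, b_{2g}`. -/
def IsTwoBridgeKnot (K : OWord) : Prop :=
  ∃ b : List ℤ, Even b.length ∧ (∀ x ∈ b, x ≠ 0) ∧ OIsotopic K (normalForm b)

/-- The finite sequence `a i, …, a j` is convex. -/
def Convex (a : ℕ → ℤ) (i j : ℕ) : Prop :=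
  ∀ r, i + 1 ≤ r → r + 1 ≤ j → 2 * a r ≤ a (r - 1) + a (r + 1)

/-- The finite sequence `a i, …, a j` is concave. -/
def Concave (a : ℕ → ℤ) (i j : ℕ) : Prop :=
  ∀ r, i + 1 ≤ r → r + 1 ≤ j → a (r - 1) + a (r + 1) ≤ 2 * a r

theorem main {Λ : OWord → LaurentPolynomial ℤ} (hΛ : IsConway Λ) {K : OWord}
    (hK : IsTwoBridgeKnot K) :
    ∃ Δ : LaurentPolynomial ℤ, IsAlexander Λ K Δ ∧ ∃ (ε : ℤ) (n : ℕ) (a : ℕ → ℤ),
      (ε = 1 ∨ ε = -1) ∧ (∀ i ≤ n, 0 < a i) ∧ Δ = alexForm ε n a ∧
      ∃ k ≤ n, Concave a 0 k ∧ Convex a k n := by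
  obtain ⟨b, ⟨g, hg⟩, hb, hiso⟩ := hK
  have hv : Λ K = toLaurent (PQ b.reverse).1 := by
    rw [hΛ.1.isotopy _ _ hiso, value hΛ.1, pairV_eq hΛ]
  have hb' : ∀ x ∈ b.reverse, x ≠ 0 := fun x hx => hb x (List.mem_reverse.1 hx)
  have hlen : b.reverse.length = 2 * g := by rw [List.length_reverse]; omega
  obtain ⟨a, ε, k, hε, hk, hpos, hzero, hFP, hconc, hconv⟩ := Q174.TB.shape b.reverse hb' hlen
  refine ⟨subst (PQ b.reverse).1, ⟨_, hv, rfl⟩, ε, g, a, hε, hpos, ?_, k, hk, ?_, ?_⟩
  · have hc := coeffs b.reverse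
    rw [hlen] at hc
    ext m
    rcases Int.even_or_odd' m with ⟨j, hj | hj⟩
    · rw [hj, alexForm_coeff hzero]
      have h1 := (hc (g + j)).1
      rw [show 2 * ((g : ℤ) + j) - ((2 * g : ℕ) : ℤ) = 2 * j by push_cast; ring] at h1
      rw [h1, hFP]
    · rw [hj, alexForm_coeff_odd]
      have h1 := (hc (g + j)).2.1
      rw [show 2 * ((g : ℤ) + j) - ((2 * g : ℕ) : ℤ) + 1 = 2 * j + 1 by push_cast; ring] at h1
      exact h1
  · intro r hr1 hr2
    exact hconc r (by omega) hr2
  · intro r hr1 hr2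
    exact hconv r hr1 hr2

/-! ### the normal forms are knots -/

theorem comp_swap (p : OPiece) {i : ℕ} (hp : p = pos i ∨ p = neg i) (hi : i < 2)
    (w : Pool.Agent.Helper454.Kauf.Word) (x : ℕ × ℕ × ℕ × ℕ) (k : ℕ) :
    componentsAux (p.forget :: p.forget :: w) [x.1, x.2.1, x.2.2.1, x.2.2.2] k =
      componentsAux w [x.1, x.2.1, x.2.2.1, x.2.2.2] k := by
  rcases hp with rfl | rfl <;> interval_cases i <;> rfl

theorem comp_rep (p : OPiece) {i : ℕ} (hp : p = pos i ∨ p = neg i) (hi : i < 2)
    (w : Pool.Agent.Helper454.Kauf.Word) (x : ℕ × ℕ × ℕ × ℕ) (k n : ℕ) :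
    componentsAux (forget (List.replicate (2 * n) p) ++ w) [x.1, x.2.1, x.2.2.1, x.2.2.2] k =
      componentsAux w [x.1, x.2.1, x.2.2.1, x.2.2.2] k := by
  induction n with
  | zero => rfl
  | succ n ih =>
    rw [show 2 * (n + 1) = 2 * n + 1 + 1 by ring, List.replicate_succ, List.replicate_succ]
    exact (comp_swap p hp hi _ x k).trans ih

theorem comp_body : ∀ (l : List ℤ) (w : Pool.Agent.Helper454.Kauf.Word),
    componentsAux (forget (body l) ++ w) [] 0 = componentsAux w [0, 0, 1, 1] 2
  | [], w => rfl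
  | b :: l, w => by
    have h : forget (body (b :: l)) ++ w =
        forget (body l) ++ (forget (twist (place l.length) b) ++ w) := by
      show forget (body l ++ twist (place l.length) b) ++ w = _
      unfold Pool.Agent.Helper454.Wh.forget
      rw [List.map_append, List.append_assoc]
    rw [h, comp_body l]
    have hp : place l.length < 2 := by
      unfold place
      split_ifs <;> omega
    unfold twist
    exact comp_rep _ (by split_ifs <;> simp) hp w (0, 0, 1, 1) 2 _

theorem width_rep (p : OPiece) {i : ℕ} (hp : p = pos i ∨ p = neg i) (hi : i < 2)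
    (w : Pool.Agent.Helper454.Kauf.Word) (n : ℕ) :
    Pool.Agent.Helper454.Kauf.width (forget (List.replicate n p) ++ w) 4 =
      Pool.Agent.Helper454.Kauf.width w 4 := by
  induction n with
  | zero => rfl
  | succ n ih =>
    rw [List.replicate_succ]
    refine Eq.trans ?_ ih
    rcases hp with rfl | rfl <;> interval_cases i <;> rfl

theorem width_body : ∀ (l : List ℤ) (w : Pool.Agent.Helper454.Kauf.Word),
    Pool.Agent.Helper454.Kauf.width (forget (body l) ++ w) 0 =
      Pool.Agent.Helper454.Kauf.width w 4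
  | [], w => rfl
  | b :: l, w => by
    have h : forget (body (b :: l)) ++ w =
        forget (body l) ++ (forget (twist (place l.length) b) ++ w) := by
      show forget (body l ++ twist (place l.length) b) ++ w = _
      unfold Pool.Agent.Helper454.Wh.forget
      rw [List.map_append, List.append_assoc]
    rw [h, width_body l]
    have hp : place l.length < 2 := by
      unfold place
      split_ifs <;> omega
    unfold twist
    exact width_rep _ (by split_ifs <;> simp) hp w _

/-- the normal form is a diagram of a knot if the number of its entries is even -/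
theorem isKnot_normalForm {b : List ℤ} (hb : Even b.length) : IsKnot (forget (normalForm b)) := by
  have h : forget (normalForm b) = forget (body b.reverse) ++ forget (bottom b.length) := by
    unfold normalForm Pool.Agent.Helper454.Wh.forget
    rw [List.map_append]
  have h2 : bottom b.length = [death 1, death 0] := if_pos hb
  constructor
  · rw [Closed, h, width_body, h2]
    rfl
  · rw [components, h, comp_body, h2]
    rfl

end

end Q174.TBD
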