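import Pool.Agent.Q174.TB.Second

/-!
# The invariant of the recursion
-/

set_option autoImplicit false

namespace Q174.TB

/-- First differences. -/
def df (F : ℤ → ℤ) : ℤ → ℤ := fun i => F i - F (i - 1)

theorem df_add (F G : ℤ → ℤ) : df (F + G) = df F + df G := by
  funext i
  simp only [df, Pi.add_apply]
  ring

theorem df_S (F : ℤ → ℤ) : df (S F) = S (df F) := rfl

/-- The sequence `1` at the place `0`. -/
def one : ℤ → ℤ := fun i => if i = 0 then 1 else 0

/-- The invariant: `C` and `C + W` belong to degrees `m - 1` and `m`. -/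
structure Inv (m : ℕ) (C W X : ℤ → ℤ) : Prop where
  dl : DL C W X
  symD : ∀ j : ℤ, (C + W) (m - j) = (C + W) j
  symC : ∀ j : ℤ, C (m - 1 - j) = C j
  negC : ∀ j < 0, C j = 0
  negW : ∀ j < 0, W j = 0
  pos : 0 < (C + W) 0
  sec : Sec (tr ((m / 2 : ℕ) : ℤ) (df C)) (tr ((m / 2 : ℕ) : ℤ) (df W))

namespace Inv

variable {m : ℕ} {C W X : ℤ → ℤ}

theorem half_add (h : Inv m C W X) :
    tr ((m / 2 : ℕ) : ℤ) (df C) + tr ((m / 2 : ℕ) : ℤ) (df W) =
      tr ((m / 2 : ℕ) : ℤ) (df (C + W)) := by
  rw [df_add, tr_add]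

/-- the first difference vanishes in the middle -/
theorem middle (h : Inv m C W X) :
    tr ((m / 2 : ℕ) : ℤ) (df (C + W)) = tr (((m + 1) / 2 : ℕ) : ℤ) (df (C + W)) := by
  rcases Nat.even_or_odd' m with ⟨k, hk | hk⟩
  · have e1 : m / 2 = k := by omega
    have e2 : (m + 1) / 2 = k := by omega
    rw [e1, e2]
  · have e1 : m / 2 = k := by omega
    have e2 : (m + 1) / 2 = k + 1 := by omega
    rw [e1, e2]
    funext i
    by_cases h1 : i ≤ (k : ℤ)
    · rw [tr_of_le h1, tr_of_le (by push_cast; omega)]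
    · rw [tr_of_lt (by omega)]
      by_cases h2 : i ≤ ((k + 1 : ℕ) : ℤ)
      · rw [tr_of_le h2]
        have h3 : i = k + 1 := by push_cast at h2; omega
        subst h3
        have := h.symD k
        rw [hk] at this
        unfold df
        rw [show ((2 * k + 1 : ℕ) : ℤ) - (k : ℤ) = k + 1 by push_cast; ring] at this
        rw [this, show (k : ℤ) + 1 - 1 = k by ring]
        ring
      · rw [tr_of_lt (by omega)]

theorem stepP (h : Inv m C W X) : Inv (m + 1) (C + W) (S W) X where
  dl := h.dl.stepP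
  symD := by
    intro j
    have h1 := h.symD (j - 1)
    have h2 := h.symD j
    have h3 := h.symC (j - 1)
    simp only [Pi.add_apply, S] at *
    push_cast
    rw [show (m : ℤ) - (j - 1) = m + 1 - j by ring] at h1
    rw [show (m : ℤ) - 1 - (j - 1) = m - j by ring] at h3
    rw [show (m : ℤ) + 1 - j - 1 = m - j by ring]
    linarith
  symC := by
    intro j
    rw [show ((m + 1 : ℕ) : ℤ) - 1 - j = m - j by push_cast; ring]
    exact h.symD j
  negC := fun j hj => by simp [h.negC j hj, h.negW j hj]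
  negW := fun j hj => h.negW (j - 1) (by omega)
  pos := by
    have := h.pos
    simp only [Pi.add_apply, S] at *
    rw [h.negW (0 - 1) (by omega)]
    omega
  sec := by
    have h1 : (((m + 1) / 2 : ℕ) : ℤ) ≤ ((m / 2 : ℕ) : ℤ) + 1 := by omega
    have h0 : ((m / 2 : ℕ) : ℤ) ≤ (((m + 1) / 2 : ℕ) : ℤ) := by omega
    have hmid := h.middle
    rw [← h.half_add] at hmid
    have hle : ∀ j ≤ (((m + 1) / 2 : ℕ) : ℤ),
        (tr ((m / 2 : ℕ) : ℤ) (df C) + tr ((m / 2 : ℕ) : ℤ) (df W)) j =
          (C j + W j) - (C (j - 1) + W (j - 1)) := by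
      intro j hj
      rw [hmid, tr_of_le hj]
      rfl
    have hrel : ∀ j, C j + W j = X j + C (j - 1) := fun j => congrFun h.dl.rel j
    have k := Sec.stepP h.sec (tr_tr _ le_rfl) (tr_tr _ le_rfl) h0 h1 (X := X) (W := W)
      h.dl.X0 h.dl.W0 h.dl.s7 h.dl.s8
      (by
        intro j hj
        rw [hle j hj]
        have := hrel j
        linarith)
      (by
        intro j hj
        rw [hle j hj, tr_of_le (by omega : j - 1 ≤ ((m / 2 : ℕ) : ℤ))]
        have g1 := hrel j
        have g2 := hrel (j - 1)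
        simp only [df]
        linarith)
    rw [hmid] at k
    have e : tr (((m + 1) / 2 : ℕ) : ℤ) (S (tr ((m / 2 : ℕ) : ℤ) (df W))) =
        tr (((m + 1) / 2 : ℕ) : ℤ) (df (S W)) := by
      rw [S_tr, tr_tr _ h1]
      rfl
    rw [e] at k
    exact k

theorem stepR (h : Inv m C W X) : Inv (m + 1) (C + W) (S (C + W + C)) (C + W + S C) where
  dl := h.dl.stepR
  symD := by
    intro j
    have h1 := h.symD (j - 1)
    have h2 := h.symD j
    have h3 := h.symC (j - 1)
    simp only [Pi.add_apply, S] at *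
    push_cast
    rw [show (m : ℤ) - (j - 1) = m + 1 - j by ring] at h1
    rw [show (m : ℤ) - 1 - (j - 1) = m - j by ring] at h3
    rw [show (m : ℤ) + 1 - j - 1 = m - j by ring]
    linarith
  symC := by
    intro j
    rw [show ((m + 1 : ℕ) : ℤ) - 1 - j = m - j by push_cast; ring]
    exact h.symD j
  negC := fun j hj => by simp [h.negC j hj, h.negW j hj]
  negW := fun j hj => by
    have a := h.negC (j - 1) (by omega)
    have b := h.negW (j - 1) (by omega)
    simp [S, a, b]
  pos := by
    have := h.pos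
    have a := h.negC (0 - 1) (by omega)
    have b := h.negW (0 - 1) (by omega)
    simp only [Pi.add_apply, S] at *
    omega
  sec := by
    have h1 : (((m + 1) / 2 : ℕ) : ℤ) ≤ ((m / 2 : ℕ) : ℤ) + 1 := by omega
    have h0 : ((m / 2 : ℕ) : ℤ) ≤ (((m + 1) / 2 : ℕ) : ℤ) := by omega
    have hmid := h.middle
    rw [← h.half_add] at hmid
    have k := Sec.stepR h.sec (tr_tr _ le_rfl) (tr_tr _ le_rfl) h0 h1
    have e : tr (((m + 1) / 2 : ℕ) : ℤ) (S (tr ((m / 2 : ℕ) : ℤ) (df C) +
        tr ((m / 2 : ℕ) : ℤ) (df W) + tr ((m / 2 : ℕ) : ℤ) (df C))) =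
        tr (((m + 1) / 2 : ℕ) : ℤ) (df (S (C + W + C))) := by
      rw [← tr_add, ← tr_add, S_tr, tr_tr _ h1, ← df_add, ← df_add]
      rfl
    rw [e, hmid] at k
    exact k

theorem stepQ (h : Inv m C W X) : Inv m C (C + W + S C) (C + W + C) where
  dl := h.dl.stepQ
  symD := by
    intro j
    have h1 := h.symD j
    have h2 := h.symC j
    have h3 := h.symC (j - 1)
    simp only [Pi.add_apply, S] at *
    rw [show (m : ℤ) - 1 - (j - 1) = m - j by ring] at h3
    rw [show (m : ℤ) - 1 - j = m - j - 1 by ring] at h2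
    linarith
  symC := h.symC
  negC := h.negC
  negW := fun j hj => by
    have a := h.negC (j - 1) (by omega)
    simp [S, a, h.negC j hj, h.negW j hj]
  pos := by
    have := h.pos
    have a := h.negC (0 - 1) (by omega)
    have b := h.dl.C0 0
    simp only [Pi.add_apply, S] at *
    omega
  sec := by
    have k := Sec.stepQ h.sec (tr_tr _ le_rfl) (tr_tr _ le_rfl)
    have e : tr ((m / 2 : ℕ) : ℤ) (tr ((m / 2 : ℕ) : ℤ) (df C) +
        tr ((m / 2 : ℕ) : ℤ) (df W) + S (tr ((m / 2 : ℕ) : ℤ) (df C))) =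
        tr ((m / 2 : ℕ) : ℤ) (df (C + W + S C)) := by
      rw [← tr_add, tr_add, S_tr, tr_tr _ le_rfl, tr_tr _ (by omega), ← tr_add, ← df_add,
        df_add (C + W) (S C)]
      rfl
    rw [e] at k
    exact k

theorem init : Inv 0 0 one one where
  dl := by
    have hn : ∀ i, 0 ≤ one i := by intro i; unfold one; split_ifs <;> omega
    have hR : R one (S one) := by
      intro i p hp
      unfold S one
      split_ifs <;> omega
    have z1 : ∀ K : ℤ → ℤ, R 0 K := by intro K i p _; simp
    have z2 : ∀ K : ℤ → ℤ, R K 0 := by intro K i p _; simp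
    have s0 : S (0 : ℤ → ℤ) = 0 := rfl
    refine ⟨fun _ => le_rfl, hn, hn, ?_, z1 _, z1 _, ?_, ?_, hR, ?_, hR, hR⟩
    · rw [s0, zero_add, add_zero]
    · rw [zero_add]; exact hR
    · rw [s0]; exact z2 _
    · rw [zero_add]; exact hR
  symD := by
    intro j
    simp only [Pi.add_apply, Pi.zero_apply, one, zero_add]
    push_cast
    split_ifs <;> omega
  symC := fun _ => rfl
  negC := fun _ _ => rfl
  negW := fun j hj => by
    unfold one
    rw [if_neg (by omega)]
  pos := by simp [one]
  sec := by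
    have e0 : tr ((0 / 2 : ℕ) : ℤ) (df (0 : ℤ → ℤ)) = 0 := by
      funext i
      simp [tr, df]
    have e1 : tr ((0 / 2 : ℕ) : ℤ) (df one) = one := by
      funext i
      simp only [tr, df, one]
      push_cast
      split_ifs <;> omega
    rw [e0, e1]
    have hn : ∀ i, 0 ≤ one i := by intro i; unfold one; split_ifs <;> omega
    have hR : R one (S one) := by
      intro i p hp
      unfold S one
      split_ifs <;> omega
    have z1 : ∀ K : ℤ → ℤ, R 0 K := by intro K i p _; simp
    have z2 : ∀ K : ℤ → ℤ, R K 0 := by intro K i p _; simp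
    have s0 : S (0 : ℤ → ℤ) = 0 := rfl
    refine ⟨fun _ => le_rfl, hn, z1 _, z1 _, ?_, ?_, hR⟩
    · rw [zero_add]; exact hR
    · rw [s0]; exact z2 _

end Inv

end Q174.TB
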