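import Pool.Agent.Q174.TB.Final

/-!
# Log-concavity for two-bridge links
-/

set_option autoImplicit false

namespace Q174.TBD

open Pool.Agent.Helper454.Wh
open Pool.Agent.Helper454.Wh.OPiece
open Polynomial (toLaurent)

noncomputable section

/-- `K` is a diagram of a two-bridge link: it is isotopic to Conway's normal form
`C(2 b₁, 2 b₂, …, 2 bₘ)` for some non-zero integers `b₁, …, bₘ`. -/
def IsTwoBridgeLink (K : OWord) : Prop :=
  ∃ b : List ℤ, (∀ x ∈ b, x ≠ 0) ∧ OIsotopic K (normalForm b)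

theorem log_concave {Λ : OWord → LaurentPolynomial ℤ} (hΛ : IsConway Λ) {K : OWord}
    (hK : IsTwoBridgeLink K) :
    ∃ Δ : LaurentPolynomial ℤ, IsAlexander Λ K Δ ∧
      ∀ k : ℤ, Δ.coeff (k + 2) * Δ.coeff (k - 2) ≤ Δ.coeff k ^ 2 := by
  obtain ⟨b, hb, hiso⟩ := hK
  have hv : Λ K = toLaurent (PQ b.reverse).1 := by
    rw [hΛ.1.isotopy _ _ hiso, value hΛ.1, pairV_eq hΛ]
  have hb' : ∀ x ∈ b.reverse, x ≠ 0 := fun x hx => hb x (List.mem_reverse.1 hx)
  obtain ⟨C, W, X, ε, δ, hI, hε, -, h1, -⟩ := Q174.TB.exists_inv b.reverse hb'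
  refine ⟨subst (PQ b.reverse).1, ⟨_, hv, rfl⟩, fun k => ?_⟩
  have hc := coeffs b.reverse
  generalize hm : b.reverse.length = m at hc hI
  have hεε : ε * ε = 1 := by rcases hε with h | h <;> rw [h] <;> norm_num
  rcases Int.even_or_odd' (k + m) with ⟨j, hj | hj⟩
  · have e0 : (subst (PQ b.reverse).1).coeff k = ε * Q174.TB.sg j * (C + W) j := by
      rw [← h1, ← (hc j).1]
      congr 1
      omega
    have e1 : (subst (PQ b.reverse).1).coeff (k + 2) = ε * Q174.TB.sg (j + 1) * (C + W) (j + 1) := by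
      rw [← h1, ← (hc (j + 1)).1]
      congr 1
      omega
    have e2 : (subst (PQ b.reverse).1).coeff (k - 2) = ε * Q174.TB.sg (j - 1) * (C + W) (j - 1) := by
      rw [← h1, ← (hc (j - 1)).1]
      congr 1
      omega
    have s1 : Q174.TB.sg (j - 1) = -Q174.TB.sg j := Q174.TB.sg_sub_one j
    have s2 : Q174.TB.sg (j + 1) = -Q174.TB.sg j := by
      have := Q174.TB.sg_sub_one (j + 1)
      rw [show j + 1 - 1 = j by ring] at this
      rw [this]
      ring
    have s3 := Q174.TB.sg_mul_self j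
    have lc := hI.dl.dd j j le_rfl
    simp only [Q174.TB.S] at lc
    rw [show j + 1 - 1 = j by ring] at lc
    rw [e0, e1, e2, s1, s2]
    calc ε * -Q174.TB.sg j * (C + W) (j + 1) * (ε * -Q174.TB.sg j * (C + W) (j - 1))
        = (ε * ε) * (Q174.TB.sg j * Q174.TB.sg j) * ((C + W) (j + 1) * (C + W) (j - 1)) := by ring
      _ = (C + W) (j + 1) * (C + W) (j - 1) := by rw [hεε, s3]; ring
      _ ≤ (C + W) j * (C + W) j := lc
      _ = (ε * ε) * (Q174.TB.sg j * Q174.TB.sg j) * ((C + W) j * (C + W) j) := by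
        rw [hεε, s3]; ring
      _ = (ε * Q174.TB.sg j * (C + W) j) ^ 2 := by ring
  · have e1 : (subst (PQ b.reverse).1).coeff (k + 2) = 0 := by
      rw [← (hc (j + 1)).2.1]
      congr 1
      omega
    rw [e1, zero_mul]
    positivity

end

end Q174.TBD
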