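import Pool.Agent.Q174.TB.Seq

/-!
# The second level: first differences up to the middle
-/

set_option autoImplicit false

namespace Q174.TB

theorem tr_fix {F : ℤ → ℤ} {e e' : ℤ} (h : tr e F = F) (he : e ≤ e') : tr e' F = F := by
  funext i
  by_cases h1 : i ≤ e'
  · exact tr_of_le h1
  · rw [tr_of_lt (by omega), ← h, tr_of_lt (by omega)]

/-- The conditions on the truncated first differences `c`, `c + u` of two consecutive sequences. -/
structure Sec (c u : ℤ → ℤ) : Prop where
  c0 : ∀ i, 0 ≤ c i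
  u0 : ∀ i, 0 ≤ u i
  s1 : R c u
  s2 : R c (S c)
  s3 : R (c + u) (S u)
  s4 : R (c + u) (S c)
  s5 : R u (S u)

/-- the inequality which is needed for the step `P` -/
theorem key {A1 A0 Am C0 Cm X1 X0 Xm Y0 Ym : ℤ} (hA0 : 0 ≤ A0) (hAm : 0 ≤ Am)
    (hC0 : 0 ≤ C0) (hCA : C0 ≤ A0) (hX0 : 0 ≤ X0)
    (hv1 : A1 - C0 = X1 - X0) (hv0 : A0 - Cm = X0 - Xm)
    (ha0 : A0 = X0 - Y0) (ham : Am = Xm - Ym) (hY0 : 0 ≤ Y0)
    (hxy : X0 * Ym ≤ Xm * Y0) (hx : X1 * Xm ≤ X0 * X0) (hac : A1 * Cm ≤ A0 * C0)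
    (haa : A1 * Am ≤ A0 * A0) :
    (A1 - C0) * Am ≤ (A0 - Cm) * A0 := by
  rcases le_or_gt 0 (A0 - Cm) with h0 | h0
  · rcases le_or_gt (A1 - C0) 0 with h1 | h1
    · nlinarith [mul_nonneg h0 hA0, mul_nonneg (neg_nonneg.2 h1) hAm]
    · rcases eq_or_lt_of_le hA0 with h2 | h2
      · have hc : C0 = 0 := le_antisymm (by omega) hC0
        rw [hc, ← h2]
        rw [← h2] at haa
        simpa using haa
      · have e1 : (A1 - C0) * A0 ≤ (A0 - Cm) * A1 := by nlinarith
        have e2 : (A1 - C0) * Am * A0 ≤ (A0 - Cm) * A0 * A0 := by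
          nlinarith [mul_le_mul_of_nonneg_right e1 hAm, mul_le_mul_of_nonneg_left haa h0]
        exact le_of_mul_le_mul_right e2 h2
  · have hXm' : 0 < Xm := by omega
    have e1 : (X1 - X0) * Xm ≤ (X0 - Xm) * X0 := by nlinarith
    have e2 : (A1 - C0) * Am * Xm ≤ (A0 - Cm) * A0 * Xm := by
      rw [hv1, hv0]
      have hp : 0 ≤ Xm - X0 := by omega
      have g1 : (X1 - X0) * Xm * Am ≤ (X0 - Xm) * X0 * Am := mul_le_mul_of_nonneg_right e1 hAm
      have g2 : X0 * Am ≥ Xm * A0 := by
        rw [ha0, ham]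
        nlinarith
      nlinarith [mul_le_mul_of_nonneg_left g2 hp]
    exact le_of_mul_le_mul_right e2 hXm'

namespace Sec

variable {c u : ℤ → ℤ}

theorem a0 (h : Sec c u) : ∀ i, 0 ≤ (c + u) i := add_nn h.c0 h.u0

theorem ca (h : Sec c u) : R c (c + u) := h.s2.self.add_right h.s1

theorem aa (h : Sec c u) : R (c + u) (S (c + u)) := h.s4.add_right h.s3

/-- step `R`; `e` and `e'` are the old and the new middle -/
theorem stepR {e e' : ℤ} (h : Sec c u) (hc : tr e c = c) (hu : tr e u = u) (h1 : e ≤ e')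
    (h2 : e' ≤ e + 1) : Sec (c + u) (tr e' (S (c + u + c))) := by
  have ha : tr e (c + u) = c + u := by rw [tr_add, hc, hu]
  have ha' : tr e' (c + u) = c + u := tr_fix ha h1
  have hs : tr (e + 1) (S (c + u)) = S (c + u) := by rw [← S_tr, ha]
  have n1 : ∀ i, 0 ≤ S (c + u + c) i := S_nonneg (add_nn h.a0 h.c0)
  have n2 : ∀ i, 0 ≤ S (S (c + u + c)) i := S_nonneg n1
  have e1 : c + u + tr e' (S (c + u + c)) = tr e' (c + u + S (c + u + c)) := by
    rw [tr_add, ha']
  refine ⟨h.a0, tr_nonneg n1, ?_, h.aa, ?_, ?_, ?_⟩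
  · have := R.trunc (h.aa.add_right h.s4) h1 h.a0 n1
    rwa [ha] at this
  · rw [e1, S_tr]
    refine R.trunc ?_ (by omega) (add_nn h.a0 n1) n2
    refine R.add_left (h.aa.add_right h.s4).shift ?_
    refine R.both ?_
    exact (h.aa.add_right h.s4).add_left (h.ca.shift.add_right h.s2)
  · rw [e1, ← hs]
    refine R.trunc ?_ h2 (add_nn h.a0 n1) (S_nonneg h.a0)
    refine R.add_left h.aa ?_
    refine R.both ?_
    exact h.aa.self.add_left h.ca
  · rw [S_tr]
    refine R.trunc ?_ (by omega) n1 n2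
    refine R.both ?_
    exact (h.aa.add_right h.s4).add_left (h.ca.shift.add_right h.s2)

/-- step `Q` -/
theorem stepQ {e : ℤ} (h : Sec c u) (hc : tr e c = c) (hu : tr e u = u) :
    Sec c (tr e (c + u + S c)) := by
  have ha : tr e (c + u) = c + u := by rw [tr_add, hc, hu]
  have n1 : ∀ i, 0 ≤ (c + u + S c) i := add_nn h.a0 (S_nonneg h.c0)
  have hs : tr (e + 1) (S c) = S c := by rw [← S_tr, hc]
  have e1 : c + tr e (c + u + S c) = tr e (c + (c + u + S c)) := by
    rw [tr_add c, hc]
  refine ⟨h.c0, tr_nonneg n1, ?_, h.s2, ?_, ?_, ?_⟩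
  · have := R.trunc (h.ca.add_right h.s2) (le_refl e) h.c0 n1
    rwa [hc] at this
  · rw [e1, S_tr]
    refine R.trunc ?_ (by omega) (add_nn h.c0 n1) (S_nonneg n1)
    rw [S_add (c + u)]
    refine R.add_left ?_ (R.add_left ?_ ?_)
    · exact h.ca.shift.add_right h.s2.shift
    · exact h.aa.add_right h.s4.shift
    · exact (h.ca.add_right h.s2).both
  · rw [e1]
    have g : R (c + (c + u + S c)) (S c) :=
      R.add_left h.s2 (R.add_left h.s4 h.s2.self.both)
    have := R.trunc g (by omega : e ≤ e + 1) (add_nn h.c0 n1) (S_nonneg h.c0)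
    rwa [hs] at this
  · rw [S_tr]
    refine R.trunc ?_ (by omega) n1 (S_nonneg n1)
    rw [S_add (c + u)]
    refine R.add_left ?_ ?_
    · exact h.aa.add_right h.s4.shift
    · exact (h.ca.add_right h.s2).both

/-- step `P` -/
theorem stepP {e e' : ℤ} (h : Sec c u) (hc : tr e c = c) (hu : tr e u = u) (h1 : e ≤ e')
    (h2 : e' ≤ e + 1) {X W : ℤ → ℤ} (hX0 : ∀ i, 0 ≤ X i) (hW0 : ∀ i, 0 ≤ W i)
    (hx : R X (S X)) (hxw : R X (S W))
    (hxa : ∀ j ≤ e', (c + u) j = X j - W (j - 1))
    (hv : ∀ j ≤ e', (c + u) j - c (j - 1) = X j - X (j - 1)) :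
    Sec (c + u) (tr e' (S u)) := by
  have ha : tr e (c + u) = c + u := by rw [tr_add, hc, hu]
  have ha' : tr e' (c + u) = c + u := tr_fix ha h1
  have n1 : ∀ i, 0 ≤ S u i := S_nonneg h.u0
  have e1 : c + u + tr e' (S u) = tr e' (c + u + S u) := by
    rw [tr_add, ha']
  refine ⟨h.a0, tr_nonneg n1, ?_, h.aa, ?_, ?_, ?_⟩
  · have := R.trunc h.s3 h1 h.a0 n1
    rwa [ha] at this
  · rw [e1, S_tr]
    refine R.trunc ?_ (by omega) (add_nn h.a0 n1) (S_nonneg n1)
    exact R.add_left h.s3.shift h.s5.both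
  · rw [e1]
    intro i p hp
    have a0 := h.a0
    have aa := h.aa
    set a : ℤ → ℤ := c + u with hadef
    have hua : ∀ j, u j = a j - c j := fun j => by rw [hadef]; simp
    by_cases hi : i + 1 ≤ e'
    · rw [tr_of_le hi, tr_of_le (by omega : i ≤ e')]
      have g1 : (a + S u) (i + 1) = a (i + 1) + u i := by
        simp only [Pi.add_apply, S]
        rw [show i + 1 - 1 = i by ring]
      have g0 : (a + S u) i = a i + u (i - 1) := by
        simp only [Pi.add_apply, S]
      have g2 : S a p = a (p - 1) := rfl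
      have g3 : S a (p + 1) = a p := by
        simp only [S]
        rw [show p + 1 - 1 = p by ring]
      rw [g1, g0, g2, g3]
      -- the adjacent inequality
      have adj : (a (i + 1) + u i) * a (i - 1) ≤ (a i + u (i - 1)) * a i := by
        have hv1 := hv (i + 1) hi
        rw [show i + 1 - 1 = i by ring] at hv1
        have hv0 := hv i (by omega)
        have ha0 := hxa i (by omega)
        have ham := hxa (i - 1) (by omega)
        have hxy := hxw (i - 1) (i - 1) le_rfl
        rw [show i - 1 + 1 = i by ring] at hxy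
        have hxx := hx i i le_rfl
        have hac := h.s4 i i le_rfl
        have haa := aa i i le_rfl
        simp only [S] at hxy hxx hac haa
        rw [show i + 1 - 1 = i by ring] at hxx hac haa
        have k := key (A1 := a (i + 1)) (A0 := a i) (Am := a (i - 1)) (C0 := c i)
          (Cm := c (i - 1)) (X1 := X (i + 1)) (X0 := X i) (Xm := X (i - 1)) (Y0 := W (i - 1))
          (Ym := W (i - 1 - 1)) (a0 i) (a0 (i - 1)) (h.c0 i)
          (by have := h.u0 i; have := hua i; omega) (hX0 i) hv1 hv0 ha0 ham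
          (hW0 (i - 1)) hxy hxx hac haa
        rw [hua i, hua (i - 1)]
        nlinarith
      rcases eq_or_lt_of_le hp with h0 | h0
      · subst h0
        exact adj
      · have lc := aa (i - 1) p (by omega)
        rw [show i - 1 + 1 = i by ring] at lc
        rw [g2, g3] at lc
        rcases eq_or_lt_of_le (a0 i) with h5 | h5
        · have hci : c i = 0 := le_antisymm (by have := h.u0 i; have := hua i; omega) (h.c0 i)
          have hui : u i = 0 := by rw [hua i]; omega
          rw [hui, ← h5]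
          have lc2 := aa i p hp
          rw [g2, g3, ← h5, zero_mul] at lc2
          rw [add_zero, zero_add]
          exact le_trans lc2 (mul_nonneg (h.u0 _) (a0 _))
        · have q1 : 0 ≤ a (i + 1) + u i := add_nonneg (a0 _) (h.u0 _)
          have q2 : (a (i + 1) + u i) * a (p - 1) * a i ≤ (a i + u (i - 1)) * a p * a i := by
            have r1 := mul_le_mul_of_nonneg_left lc q1
            have r2 := mul_le_mul_of_nonneg_right adj (a0 p)
            nlinarith
          exact le_of_mul_le_mul_right q2 h5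
    · rw [tr_of_lt (by omega : e' < i + 1), zero_mul]
      exact mul_nonneg (tr_nonneg (add_nn a0 n1) i) (S_nonneg a0 _)
  · rw [S_tr]
    exact R.trunc h.s5.both (by omega) n1 (S_nonneg n1)

end Sec

end Q174.TB
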