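import Mathlib

/-!
# Integer sequences and 2 x 2 minors

Sequences are functions `ℤ → ℤ`.  `R F K` says that all the minors
`F i * K (p + 1) - F (i + 1) * K p` with `p ≤ i` are non-negative.
-/

set_option autoImplicit false

namespace Q174.TB

/-- The shifted sequence. -/
def S (F : ℤ → ℤ) : ℤ → ℤ := fun i => F (i - 1)

/-- The minors `F i * K (p + 1) - F (i + 1) * K p`, `p ≤ i`, are non-negative. -/
def R (F K : ℤ → ℤ) : Prop := ∀ i p : ℤ, p ≤ i → F (i + 1) * K p ≤ F i * K (p + 1)

/-- Truncation: the terms after the `h`-th become zero. -/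
def tr (h : ℤ) (F : ℤ → ℤ) : ℤ → ℤ := fun i => if i ≤ h then F i else 0

theorem S_add (F G : ℤ → ℤ) : S (F + G) = S F + S G := rfl

theorem R.add_left {F G K : ℤ → ℤ} (h1 : R F K) (h2 : R G K) : R (F + G) K := by
  intro i p hp
  have a := h1 i p hp
  have b := h2 i p hp
  simp only [Pi.add_apply]
  linarith

theorem R.add_right {F G K : ℤ → ℤ} (h1 : R F G) (h2 : R F K) : R F (G + K) := by
  intro i p hp
  have a := h1 i p hp
  have b := h2 i p hp
  simp only [Pi.add_apply]
  linarith

theorem R.shift {F K : ℤ → ℤ} (h : R F K) : R F (S K) := by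
  intro i p hp
  have a := h i (p - 1) (by omega)
  simp only [S]
  have e1 : p - 1 + 1 = p := by ring
  have e2 : p + 1 - 1 = p := by ring
  rw [e1] at a
  rw [e2]
  exact a

theorem R.both {F K : ℤ → ℤ} (h : R F K) : R (S F) (S K) := by
  intro i p hp
  have a := h (i - 1) (p - 1) (by omega)
  simp only [S]
  have e1 : p - 1 + 1 = p := by ring
  have e2 : p + 1 - 1 = p := by ring
  have e3 : i - 1 + 1 = i := by ring
  have e4 : i + 1 - 1 = i := by ring
  rw [e1, e3] at a
  rw [e2, e4]
  exact a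

/-- the minors of `F` with itself: the case `p = i` is trivial -/
theorem R.self {F : ℤ → ℤ} (h : R F (S F)) : R F F := by
  intro i p hp
  rcases eq_or_lt_of_le hp with h0 | h0
  · subst h0
    exact le_of_eq (mul_comm _ _)
  · have a := h i (p + 1) (by omega)
    simp only [S] at a
    have e1 : p + 1 - 1 = p := by ring
    have e2 : p + 1 + 1 - 1 = p + 1 := by ring
    rw [e1, e2] at a
    exact a

theorem R.trunc {F K : ℤ → ℤ} {e e' : ℤ} (h : R F K) (he : e ≤ e') (hF : ∀ i, 0 ≤ F i)
    (hK : ∀ i, 0 ≤ K i) : R (tr e F) (tr e' K) := by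
  intro i p hp
  unfold tr
  by_cases h1 : i + 1 ≤ e
  · rw [if_pos h1, if_pos (by omega : p ≤ e'), if_pos (by omega : i ≤ e),
      if_pos (by omega : p + 1 ≤ e')]
    exact h i p hp
  · rw [if_neg h1, zero_mul]
    apply mul_nonneg
    · split_ifs
      · exact hF i
      · exact le_rfl
    · split_ifs
      · exact hK _
      · exact le_rfl

theorem tr_nonneg {F : ℤ → ℤ} {e : ℤ} (hF : ∀ i, 0 ≤ F i) : ∀ i, 0 ≤ tr e F i := by
  intro i
  unfold tr
  split_ifs
  · exact hF i
  · exact le_rfl

theorem tr_of_le {F : ℤ → ℤ} {e i : ℤ} (h : i ≤ e) : tr e F i = F i := if_pos h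

theorem tr_of_lt {F : ℤ → ℤ} {e i : ℤ} (h : e < i) : tr e F i = 0 := if_neg (by omega)

theorem S_tr (F : ℤ → ℤ) (e : ℤ) : S (tr e F) = tr (e + 1) (S F) := by
  funext i
  unfold S tr
  by_cases h : i ≤ e + 1
  · rw [if_pos h, if_pos (by omega)]
  · rw [if_neg h, if_neg (by omega)]

theorem tr_add (F G : ℤ → ℤ) (e : ℤ) : tr e (F + G) = tr e F + tr e G := by
  funext i
  unfold tr
  simp only [Pi.add_apply]
  split_ifs <;> simp

theorem tr_tr (F : ℤ → ℤ) {e e' : ℤ} (h : e ≤ e') : tr e (tr e' F) = tr e F := by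
  funext i
  unfold tr
  by_cases h1 : i ≤ e
  · rw [if_pos h1, if_pos h1, if_pos (by omega)]
  · rw [if_neg h1, if_neg h1]

theorem S_nonneg {F : ℤ → ℤ} (hF : ∀ i, 0 ≤ F i) : ∀ i, 0 ≤ S F i := fun i => hF (i - 1)

theorem add_nn {F G : ℤ → ℤ} (hF : ∀ i, 0 ≤ F i) (hG : ∀ i, 0 ≤ G i) : ∀ i, 0 ≤ (F + G) i :=
  fun i => add_nonneg (hF i) (hG i)

/-! ### The first level -/

/-- The conditions on two consecutive sequences `C` and `D = C + W = X + S C`. -/
structure DL (C W X : ℤ → ℤ) : Prop where
  C0 : ∀ i, 0 ≤ C i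
  W0 : ∀ i, 0 ≤ W i
  X0 : ∀ i, 0 ≤ X i
  rel : C + W = X + S C
  s1 : R C W
  s2 : R C (S C)
  s3 : R (C + W) (S W)
  s4 : R (C + W) (S C)
  s5 : R W (S W)
  s6 : R X (S (C + W))
  s7 : R X (S X)
  s8 : R X (S W)

namespace DL

variable {C W X : ℤ → ℤ}

theorem D0 (h : DL C W X) : ∀ i, 0 ≤ (C + W) i := add_nn h.C0 h.W0

theorem cd (h : DL C W X) : R C (C + W) := h.s2.self.add_right h.s1

theorem dd (h : DL C W X) : R (C + W) (S (C + W)) := h.s4.add_right h.s3

/-- the next sequence is `D + S W = X + S D` -/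
theorem stepP (h : DL C W X) : DL (C + W) (S W) X where
  C0 := h.D0
  W0 := S_nonneg h.W0
  X0 := h.X0
  rel := by
    have := h.rel
    rw [S_add]
    nth_rw 1 [this]
    rw [add_assoc]
  s1 := h.s3
  s2 := h.dd
  s3 := (h.s3.shift).add_left h.s5.both
  s4 := by
    have e : C + W + S W = X + S (C + W) := by
      rw [S_add, ← add_assoc, ← h.rel]
    rw [e]
    exact h.s6.add_left h.dd.self.both
  s5 := h.s5.both
  s6 := by
    have e : C + W + S W = X + S (C + W) := by
      rw [S_add, ← add_assoc, ← h.rel]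
    rw [e]
    exact h.s7.add_right h.s6.shift
  s7 := h.s7
  s8 := h.s8.shift

/-- the next sequence is `D + S D + S C` -/
theorem stepR (h : DL C W X) : DL (C + W) (S (C + W + C)) (C + W + S C) where
  C0 := h.D0
  W0 := S_nonneg (add_nn h.D0 h.C0)
  X0 := add_nn h.D0 (S_nonneg h.C0)
  rel := by
    simp only [S_add]
    abel
  s1 := h.dd.add_right h.s4
  s2 := h.dd
  s3 := by
    rw [S_add]
    refine R.add_left ?_ (R.add_left ?_ ?_)
    · exact (h.dd.add_right h.s4).shift
    · exact (h.dd.add_right h.s4).both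
    · exact ((h.cd.shift).add_right h.s2).both
  s4 := by
    rw [S_add]
    exact R.add_left h.dd (R.add_left h.dd.self.both h.cd.both)
  s5 := by
    apply R.both
    exact (h.dd.add_right h.s4).add_left ((h.cd.shift).add_right h.s2)
  s6 := by
    refine R.add_left ?_ ?_
    · exact h.dd.add_right ((h.dd.add_right h.s4).shift)
    · refine R.both ?_
      refine h.cd.add_right ?_
      exact (h.cd.shift).add_right h.s2
  s7 := by
    refine R.add_left ?_ ?_
    · exact h.dd.add_right h.s4.shift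
    · exact R.both (h.cd.add_right h.s2)
  s8 := by
    refine R.add_left ?_ ?_
    · exact (h.dd.add_right h.s4).shift
    · refine R.both ?_
      exact (h.cd.shift).add_right h.s2

/-- the last sequence `D` is replaced by `D + C + S C` -/
theorem stepQ (h : DL C W X) : DL C (C + W + S C) (C + W + C) where
  C0 := h.C0
  W0 := add_nn h.D0 (S_nonneg h.C0)
  X0 := add_nn h.D0 h.C0
  rel := by
    abel
  s1 := h.cd.add_right h.s2
  s2 := h.s2
  s3 := by
    rw [S_add]
    refine R.add_left ?_ (R.add_left ?_ ?_)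
    · exact h.cd.shift.add_right h.s2.shift
    · exact h.dd.add_right h.s4.shift
    · exact (h.cd.add_right h.s2).both
  s4 := by
    refine R.add_left h.s2 (R.add_left h.s4 ?_)
    exact h.s2.self.both
  s5 := by
    rw [S_add]
    refine R.add_left ?_ ?_
    · exact h.dd.add_right h.s4.shift
    · exact (h.cd.add_right h.s2).both
  s6 := by
    simp only [S_add (C) (C + W + S C), S_add (C + W) (S C)]
    refine R.add_left ?_ ?_
    · exact h.s4.add_right (h.dd.add_right h.s4.shift)
    · exact h.s2.add_right (h.cd.shift.add_right h.s2.shift)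
  s7 := by
    rw [S_add]
    refine R.add_left ?_ ?_
    · exact h.dd.add_right h.s4
    · exact h.cd.shift.add_right h.s2
  s8 := by
    rw [S_add]
    refine R.add_left ?_ ?_
    · exact h.dd.add_right h.s4.shift
    · exact h.cd.shift.add_right h.s2.shift

end DL

end Q174.TB
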